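import Mathlib
import Pool.Agent.H905R3.RatMap
import Pool.Agent.U211.DG.Gen
import Pool.Agent.U211.DG.Asym

/-!
# A rational self-map of projective 3-space with `deg (f ^ n) ≍ n ^ 4`

Let `E : y ^ 2 = x ^ 3 + b` and let the sixth roots of unity act on `E × E × E` diagonally. The
quotient is a rational threefold with the affine coordinates `x_P / x_R`, `x_Q / x_R` and
`(y_P - y_R) / (y_Q - y_R)`, and `f` is the birational map of the quotient induced by the
automorphism `(P, Q, R) ↦ (P + Q, Q + R, R)`. The `n`-th iterate of the automorphism is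
`(P + n Q + n (n - 1) / 2 R, Q + n R, R)` and heights on elliptic curves are quadratic, so the
degree of `f ^ n` grows like `n ^ 4`.

`RatMap K N` (`Pool/Agent/H905R3/RatMap.lean`): `N + 1` forms of one common degree `degree` without
nonconstant common factor; `Dominant`: the forms are algebraically independent; `IsIterate n g`: the
forms of `g` are those of the `n`-fold substitution divided by a common factor; so `g.degree` is
`deg (f ^ n)`. `SameGrowth F G` (`Pool/Agent/U211/DG/Asym.lean`): `F n ≍ G n`.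
-/

set_option autoImplicit false

namespace Pool.Agent.Results.MP_55ef7c_ag.QuarticDegreeGrowth

open Filter Topology
open Pool.Agent.H905R3
open Pool.Agent.U211.DG

universe u

/-- **Degree growth `n ^ 4` in dimension 3.** Over every field `K` in which `2` and `3` are not
zero there is a dominant rational self-map `f` of projective 3-space whose dynamical degree
`δ_f = lim deg (f ^ n) ^ (1 / n)` is `1` and such that for real numbers `l` and `δ` one has
`deg (f ^ n) ≍ n ^ l * δ ^ n` if and only if `l = 4` and `δ = 1`. -/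
theorem result (K : Type u) [Field K] (h2 : (2 : K) ≠ 0) (h3 : (3 : K) ≠ 0) :
    ∃ f : RatMap K 3, f.Dominant ∧ ∃ g : ℕ → RatMap K 3, (∀ n, f.IsIterate n (g n)) ∧
      Tendsto (fun n : ℕ => ((g n).degree : ℝ) ^ ((1 : ℝ) / n)) atTop (𝓝 1) ∧
      ∀ l δ : ℝ, SameGrowth (fun n => (n : ℝ) ^ l * δ ^ n) (fun n => ((g n).degree : ℝ)) ↔
        l = 4 ∧ δ = 1 := by
  obtain ⟨f, hf, hgs, hbs⟩ := exists_map h2 h3
  choose g hg using exists_iterate f (fun n => co (gs K n)) hgs
  -- upper bound
  obtain ⟨c, hc⟩ := gs_upper h2 h3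
  have hup : ∀ n, (g n).degree ≤ c * (n + 1) ^ 4 := by
    intro n
    have h1 := iterate_img f (fun n => co (gs K n)) hgs (hg n)
    have h4 := degree_le_of_img (g n) (gs K n) h1
    rw [Fin.sum_univ_three] at h4
    exact h4.trans (hc n)
  -- lower bound
  obtain ⟨e, he⟩ := height_img (bs h2 h3 0)
  have hlo : ∀ n, (n + 1) ^ 4 ≤ 4 * (1 + e * (g n).degree) := by
    intro n
    have h1 := iterate_img f (fun n => co (bs h2 h3 n)) hbs (hg n)
    have h4 := he (g n) (bs h2 h3 n) h1 0
    have hA : an n ≠ 0 := by have := bn_lt_an n; omega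
    have h5 := bb_hh h2 h3 (A := an n) (B := bn n) hA
    have h6 : an n ^ 2 ≤ 1 + e * (g n).degree := h5.trans (Nat.add_le_add_left h4 1)
    have h7 : (n + 1) ^ 2 ≤ 2 * an n := by rw [an_ge]; nlinarith
    calc (n + 1) ^ 4 = ((n + 1) ^ 2) ^ 2 := by ring
      _ ≤ (2 * an n) ^ 2 := Nat.pow_le_pow_left h7 2
      _ = 4 * an n ^ 2 := by ring
      _ ≤ 4 * (1 + e * (g n).degree) := Nat.mul_le_mul_left 4 h6
  -- the two bounds with real constants
  have hlo' : ∀ n : ℕ, 1 ≤ n → (1 / (8 * (e + 1) : ℝ)) * (n : ℝ) ^ 4 ≤ ((g n).degree : ℝ) := by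
    intro n hn
    have h1 := hlo n
    have h5 : 16 ≤ (n + 1) ^ 4 := by
      calc 16 = 2 ^ 4 := by norm_num
        _ ≤ (n + 1) ^ 4 := Nat.pow_le_pow_left (by omega) 4
    have h6 : n ^ 4 ≤ (n + 1) ^ 4 := Nat.pow_le_pow_left (by omega) 4
    have h7 : n ^ 4 ≤ 8 * ((e + 1) * (g n).degree) := by
      have : (e + 1) * (g n).degree = e * (g n).degree + (g n).degree := by ring
      rw [this]
      omega
    have h8 : (n : ℝ) ^ 4 ≤ 8 * (((e : ℝ) + 1) * ((g n).degree : ℝ)) := by exact_mod_cast h7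
    rw [one_div, inv_mul_le_iff₀ (by positivity)]
    linarith
  have hup' : ∀ n : ℕ, 1 ≤ n → ((g n).degree : ℝ) ≤ (16 * (c + 1) : ℝ) * (n : ℝ) ^ 4 := by
    intro n hn
    have h1 := hup n
    have h5 : (n + 1) ^ 4 ≤ 16 * n ^ 4 := by
      calc (n + 1) ^ 4 ≤ (2 * n) ^ 4 := Nat.pow_le_pow_left (by omega) 4
        _ = 16 * n ^ 4 := by ring
    have h6 : (g n).degree ≤ 16 * (c + 1) * n ^ 4 := by
      calc (g n).degree ≤ c * (n + 1) ^ 4 := h1
        _ ≤ (c + 1) * (16 * n ^ 4) := Nat.mul_le_mul (by omega) h5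
        _ = 16 * (c + 1) * n ^ 4 := by ring
    exact_mod_cast h6
  have hb : ∀ n : ℕ, 1 ≤ n → (1 / (8 * (e + 1) : ℝ)) * (n : ℝ) ^ 4 ≤ ((g n).degree : ℝ) ∧
      ((g n).degree : ℝ) ≤ (16 * (c + 1) : ℝ) * (n : ℝ) ^ 4 := fun n hn =>
    ⟨hlo' n hn, hup' n hn⟩
  exact ⟨f, hf, g, hg, tendsto_root (by positivity) (by positivity) hb,
    fun l δ => growth_unique (by positivity) (by positivity) hb l δ⟩

end Pool.Agent.Results.MP_55ef7c_ag.QuarticDegreeGrowth
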